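import Mathlib
import Pool.Agent.Q160.Cube.Core

/-!
# MP_05d054: the dimensions of a union of cube boundaries with all side lengths

Let `G` be the union, over all `t ∈ (0, 1)`, of the boundary of an axis-parallel cube of side
length `t` whose minimal corner `f t` is an arbitrary point of `[0, 1] ^ n`.  Then the sum of the
Hausdorff dimension and of the upper box dimension of `G` is at least `2 n - 1`.

Proof: for `t ≥ 1/2` the two faces orthogonal to the first axis both project onto one of finitely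
many cubes `C` of side `1/4`.  Fix `C`, let `T` be the set of the corresponding `t`, and let `A` be the
set of the heights `a` with `{a} × C ⊆ G`; for `t ∈ T` both `a` and `a + t` belong to `A`, for some `a`.
If `G` is covered by balls `B(z_i, ρ_i)` then, for every `x ∈ C`, the set `T` is covered by translates of
the `2 ρ_i` neighbourhoods of `A`, where only the balls which meet the line over `x` are used.
Integration over `x` gives `|T| |C| ≤ ∑ (2 ρ_i)^(n-1) |A_(2 ρ_i)|`, and `|A_r| |C| ≤ |G_r|`.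
-/

set_option autoImplicit false

open Set Metric MeasureTheory Topology Filter
open scoped ENNReal NNReal

namespace Pool.Agent.Results.MP_05d054_an.CubeBoundaries

/-- The `(n-1)`-skeleton of the unit cube: the union of its `(n-1)`-dimensional faces. -/
def K (n : ℕ) : Set (EuclideanSpace ℝ (Fin n)) :=
  {x | (∀ i, 0 ≤ x i ∧ x i ≤ 1) ∧ ∃ i, x i = 0 ∨ x i = 1}

/-- The union of the boundaries `t K + f t` of the cubes with side length `t` and minimal corner
`f t`, for all `t ∈ (0, 1)`. -/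
def G {n : ℕ} (f : ℝ → EuclideanSpace ℝ (Fin n)) : Set (EuclideanSpace ℝ (Fin n)) :=
  {y | ∃ t ∈ Ioo (0:ℝ) 1, ∃ x ∈ K n, y = t • x + f t}

/-- The upper box-counting dimension `limsup log N_r / log (1 / r)` as `r → 0`, where `N_r` is the
least number of closed balls of radius `r` which cover the set. -/
noncomputable def upperBoxDim {X : Type*} [PseudoEMetricSpace X] (A : Set X) : ℝ≥0∞ :=
  limsup (fun r : ℝ≥0 => ENNReal.ofReal
    (Real.log ((externalCoveringNumber r A).toNat : ℝ) / Real.log (1 / (r : ℝ)))) (𝓝[>] 0)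

/-- The height and the other coordinates. -/
noncomputable def Φ (m : ℕ) (x : EuclideanSpace ℝ (Fin (m + 1))) : ℝ × (Fin m → ℝ) :=
  (x 0, fun i => x i.succ)

lemma Φ_lip (m : ℕ) : LipschitzWith 1 (Φ m) := by
  apply LipschitzWith.of_dist_le_mul
  intro x y
  rw [NNReal.coe_one, one_mul, Prod.dist_eq]
  have h : ∀ i, dist (x i) (y i) ≤ dist x y := by
    intro i
    rw [dist_eq_norm, dist_eq_norm]
    exact PiLp.norm_apply_le (x - y) i
  exact max_le (h 0) ((dist_pi_le_iff dist_nonneg).2 fun i => h i.succ)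

lemma G_bounded {n : ℕ} (f : ℝ → EuclideanSpace ℝ (Fin n))
    (hf : ∀ t ∈ Ioo (0:ℝ) 1, ∀ i, 0 ≤ f t i ∧ f t i ≤ 1) : Bornology.IsBounded (G f) := by
  rw [isBounded_iff_subset_closedBall 0]
  refine ⟨Real.sqrt (∑ _i : Fin n, (2:ℝ) ^ 2), ?_⟩
  rintro y ⟨t, ht, x, ⟨hx, -⟩, rfl⟩
  rw [mem_closedBall_zero_iff, EuclideanSpace.norm_eq]
  apply Real.sqrt_le_sqrt
  apply Finset.sum_le_sum
  intro i _
  have h1 := hx i
  have h2 := hf t ht i
  have h3 : (t • x + f t) i = t * x i + f t i := rfl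
  rw [h3, Real.norm_eq_abs]
  have h4 : 0 ≤ t * x i := mul_nonneg ht.1.le h1.1
  have h5 : t * x i ≤ 1 := by
    calc t * x i ≤ 1 * 1 := mul_le_mul ht.2.le h1.2 h1.1 zero_le_one
      _ = 1 := one_mul 1
  apply pow_le_pow_left₀ (abs_nonneg _)
  rw [abs_le]
  constructor <;> linarith

lemma volume_thickening_le {m : ℕ} {A : Set (EuclideanSpace ℝ (Fin (m + 1)))}
    (hA : Bornology.IsBounded A) {r : ℝ} (hr : 0 < r) (hr1 : r < 1) {b : ℝ≥0}
    (hb : ENNReal.ofReal (Real.log ((externalCoveringNumber r.toNNReal A).toNat : ℝ) /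
      Real.log (1 / r)) < b) :
    volume (thickening r (Φ m '' A)) ≤ ENNReal.ofReal (4 ^ (m + 1) * r ^ ((m:ℝ) + 1 - b)) := by
  have hrc : ((r.toNNReal : ℝ≥0) : ℝ) = r := Real.coe_toNNReal r hr.le
  have hrpos : (0 : ℝ≥0) < r.toNNReal := Real.toNNReal_pos.2 hr
  obtain ⟨C₀, hC₀, hC₀f, hC₀c⟩ := exists_finite_isCover_of_isCompact_closure (ε := r.toNNReal)
    hrpos.ne' hA.isCompact_closure
  obtain ⟨C, hCc, hCN⟩ : ∃ C : Set (EuclideanSpace ℝ (Fin (m + 1))), IsCover r.toNNReal A C ∧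
      C.encard = externalCoveringNumber r.toNNReal A := by
    have : Nonempty { s : Set (EuclideanSpace ℝ (Fin (m + 1))) // IsCover r.toNNReal A s } :=
      ⟨C₀, hC₀c⟩
    obtain ⟨C, hC⟩ := ENat.exists_eq_iInf
      (fun C : { s : Set (EuclideanSpace ℝ (Fin (m + 1))) // IsCover r.toNNReal A s } =>
        (C : Set (EuclideanSpace ℝ (Fin (m + 1)))).encard)
    refine ⟨C, C.2, ?_⟩
    rw [hC, externalCoveringNumber, iInf_subtype]
  have hfin : C.Finite := by
    rw [← encard_lt_top_iff, hCN]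
    exact lt_of_le_of_lt hC₀c.externalCoveringNumber_le_encard (encard_lt_top_iff.2 hC₀f)
  set N : ℕ := (externalCoveringNumber r.toNNReal A).toNat with hN
  have hNC : N = hfin.toFinset.card := by
    rw [hN, ← hCN, hfin.encard_eq_coe_toFinset_card]; rfl
  have hlog : 0 < Real.log (1 / r) := Real.log_pos (by rw [lt_div_iff₀ hr]; linarith)
  have hNle : (N : ℝ) ≤ r ^ (-(b:ℝ)) := by
    rcases Nat.eq_zero_or_pos N with h0 | hpos
    · rw [h0, Nat.cast_zero]; positivity
    · have hN0 : (0:ℝ) < N := by exact_mod_cast hpos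
      have h1 : Real.log (N:ℝ) / Real.log (1 / r) < b := by
        by_contra hcon
        rw [not_lt] at hcon
        apply absurd hb
        rw [not_lt]
        calc (b : ℝ≥0∞) = ENNReal.ofReal (b : ℝ) := by rw [ENNReal.ofReal_coe_nnreal]
          _ ≤ _ := ENNReal.ofReal_le_ofReal hcon
      rw [div_lt_iff₀ hlog] at h1
      rw [← Real.log_le_log_iff hN0 (by positivity), Real.log_rpow hr]
      rw [one_div, Real.log_inv] at h1
      linarith
  have hsub : thickening r (Φ m '' A) ⊆ ⋃ y ∈ hfin.toFinset, closedBall (Φ m y) (2 * r) := by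
    intro w hw
    obtain ⟨_, ⟨a, ha, rfl⟩, hwa⟩ := mem_thickening_iff.1 hw
    obtain ⟨y, hy, hay⟩ := mem_iUnion₂.1 ((isCover_iff_subset_iUnion_closedBall.1 hCc) ha)
    refine mem_iUnion₂.2 ⟨y, hfin.mem_toFinset.2 hy, ?_⟩
    rw [mem_closedBall] at hay ⊢
    rw [hrc] at hay
    have h1 : dist (Φ m a) (Φ m y) ≤ dist a y := by
      simpa using (Φ_lip m).dist_le_mul a y
    have := dist_triangle w (Φ m a) (Φ m y)
    linarith
  calc volume (thickening r (Φ m '' A))
      ≤ volume (⋃ y ∈ hfin.toFinset, closedBall (Φ m y) (2 * r)) := measure_mono hsub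
    _ ≤ ∑ y ∈ hfin.toFinset, volume (closedBall (Φ m y) (2 * r)) := measure_biUnion_finset_le _ _
    _ = ∑ _y ∈ hfin.toFinset, ENNReal.ofReal ((4 * r) ^ (m + 1)) := by
        apply Finset.sum_congr rfl
        intro y _
        rw [← closedBall_prod_same, Measure.volume_eq_prod, Measure.prod_prod,
          Real.volume_closedBall, Real.volume_pi_closedBall _ (by positivity),
          ← ENNReal.ofReal_mul (by positivity)]
        congr 1
        simp only [Fintype.card_fin]
        rw [pow_succ]; ring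
    _ = ENNReal.ofReal (N * (4 * r) ^ (m + 1)) := by
        rw [Finset.sum_const, nsmul_eq_mul, ← hNC, ENNReal.ofReal_mul (by positivity),
          ENNReal.ofReal_natCast]
    _ ≤ ENNReal.ofReal (4 ^ (m + 1) * r ^ ((m:ℝ) + 1 - b)) := by
        apply ENNReal.ofReal_le_ofReal
        have h1 : r ^ ((m:ℝ) + 1 - b) = r ^ (-(b:ℝ)) * r ^ (m + 1) := by
          rw [← Real.rpow_natCast r (m + 1), ← Real.rpow_add hr]
          congr 1
          push_cast; ring
        rw [h1, mul_pow]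
        calc (N:ℝ) * (4 ^ (m + 1) * r ^ (m + 1)) ≤ r ^ (-(b:ℝ)) * (4 ^ (m + 1) * r ^ (m + 1)) := by
              gcongr
          _ = _ := by ring

/-- **The sum of the Hausdorff dimension and of the upper box dimension of `G` is at least
`2 n - 1`.** -/
theorem result (n : ℕ) (hn : 1 ≤ n) (f : ℝ → EuclideanSpace ℝ (Fin n))
    (hf : ∀ t ∈ Ioo (0:ℝ) 1, ∀ i, 0 ≤ f t i ∧ f t i ≤ 1) :
    ((2 * n - 1 : ℕ) : ℝ≥0∞) ≤ dimH (G f) + upperBoxDim (G f) := by
  obtain ⟨m, rfl⟩ : ∃ m, n = m + 1 := ⟨n - 1, by omega⟩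
  have e1 : 2 * (m + 1) - 1 = 2 * m + 1 := by omega
  rw [e1]
  by_contra hcon
  rw [not_le] at hcon
  have hD : dimH (G f) ≠ ∞ := by
    intro h; rw [h, top_add] at hcon; exact absurd hcon not_top_lt
  have hU : upperBoxDim (G f) ≠ ∞ := by
    intro h; rw [h, add_top] at hcon; exact absurd hcon not_top_lt
  -- real exponents
  obtain ⟨s, b, hs, hb, hsb⟩ : ∃ s b : ℝ≥0, dimH (G f) < s ∧ upperBoxDim (G f) < b ∧
      (s : ℝ) + b ≤ 2 * m + 1 := by
    set D := (dimH (G f)).toNNReal with hDdef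
    set U := (upperBoxDim (G f)).toNNReal with hUdef
    have hD' : dimH (G f) = D := (ENNReal.coe_toNNReal hD).symm
    have hU' : upperBoxDim (G f) = U := (ENNReal.coe_toNNReal hU).symm
    rw [hD', hU'] at hcon ⊢
    have h1 : (D : ℝ) + U < 2 * m + 1 := by
      have h2 : ((D + U : ℝ≥0) : ℝ≥0∞) < (((2 * m + 1 : ℕ) : ℝ≥0) : ℝ≥0∞) := by
        push_cast at hcon ⊢
        exact hcon
      have h3 : D + U < ((2 * m + 1 : ℕ) : ℝ≥0) := ENNReal.coe_lt_coe.1 h2
      have h4 : ((D + U : ℝ≥0) : ℝ) < (((2 * m + 1 : ℕ) : ℝ≥0) : ℝ) := NNReal.coe_lt_coe.2 h3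
      push_cast at h4
      exact h4
    set g : ℝ := (2 * m + 1 - (D + U)) / 2 with hg
    have hg0 : 0 < g := by rw [hg]; linarith
    refine ⟨D + ⟨g, hg0.le⟩, U + ⟨g, hg0.le⟩, ?_, ?_, ?_⟩
    · rw [ENNReal.coe_lt_coe]
      exact lt_add_of_pos_right _ hg0
    · rw [ENNReal.coe_lt_coe]
      exact lt_add_of_pos_right _ hg0
    · push_cast
      change (D : ℝ) + g + (U + g) ≤ 2 * m + 1
      rw [hg]; linarith
  have hs0 : 0 < (s : ℝ) := by
    have : (0 : ℝ≥0∞) < s := lt_of_le_of_lt bot_le hs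
    exact_mod_cast this
  set Γ : Set (ℝ × (Fin m → ℝ)) := Φ m '' G f with hΓ
  have hΓ0 : μH[(s:ℝ)] Γ = 0 := by
    have h1 := (Φ_lip m).hausdorffMeasure_image_le hs0.le (G f)
    rw [hausdorffMeasure_of_dimH_lt hs, mul_zero] at h1
    exact nonpos_iff_eq_zero.1 h1
  -- volumes of the neighbourhoods
  obtain ⟨r₀, hr₀, hB⟩ : ∃ r₀ : ℝ, 0 < r₀ ∧ ∀ r : ℝ, 0 < r → r < r₀ →
      volume (thickening r Γ) ≤ ENNReal.ofReal (4 ^ (m + 1) * r ^ ((m:ℝ) + 1 - b)) := by
    have h1 : ∀ᶠ r : ℝ≥0 in 𝓝[>] 0, ENNReal.ofReal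
        (Real.log ((externalCoveringNumber r (G f)).toNat : ℝ) / Real.log (1 / (r : ℝ))) < b :=
      eventually_lt_of_limsup_lt hb
    have h3 := h1
    rw [eventually_nhdsWithin_iff, Metric.eventually_nhds_iff] at h3
    obtain ⟨δ, hδ, h3⟩ := h3
    refine ⟨min δ 1, by positivity, fun r hr hrδ => ?_⟩
    have hr1 : r < 1 := hrδ.trans_le (min_le_right _ _)
    have hrc : ((r.toNNReal : ℝ≥0) : ℝ) = r := Real.coe_toNNReal r hr.le
    have hrpos : (0 : ℝ≥0) < r.toNNReal := Real.toNNReal_pos.2 hr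
    have h4 := h3 (y := r.toNNReal) (by
      rw [NNReal.dist_eq, NNReal.coe_zero, sub_zero, hrc, abs_of_pos hr]
      exact hrδ.trans_le (min_le_left _ _)) hrpos
    rw [hrc] at h4
    exact volume_thickening_le (b := b) (G_bounded f hf) hr hr1 h4
  -- every set of parameters is null
  have hnull : ∀ k : Fin m → Fin 5, volume {t : ℝ | t ∈ Ico (1/2 : ℝ) 1 ∧
      ∀ i : Fin m, f t i.succ ≤ (k i : ℝ) / 4 ∧ (k i : ℝ) / 4 + 1 / 4 ≤ f t i.succ + t} = 0 := by
    intro k
    refine Pool.Agent.Q160.Cube.core (G := Γ) (c := fun i => (k i : ℝ) / 4) ?_ hs0 hsb hΓ0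
      (κ := 4 ^ (m + 1)) (by positivity) hr₀ hB
    rintro t ⟨ht, hk⟩
    have ht0 : 0 < t := by have := ht.1; linarith
    have htI : t ∈ Ioo (0:ℝ) 1 := ⟨ht0, ht.2⟩
    -- a point of the face at height 0 or 1
    have hmem : ∀ (v : ℝ), (v = 0 ∨ v = 1) → ∀ x ∈ Icc (fun i => (k i : ℝ) / 4)
        (fun i => (k i : ℝ) / 4 + 1 / 4), (f t 0 + v * t, x) ∈ Γ := by
      intro v hv x hx
      set u : Fin (m + 1) → ℝ := Fin.cons v (fun i => (x i - f t i.succ) / t) with hu
      refine ⟨t • (WithLp.toLp 2 u) + f t, ⟨t, htI, WithLp.toLp 2 u, ⟨?_, 0, ?_⟩, rfl⟩, ?_⟩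
      · intro j
        refine Fin.cases ?_ (fun i => ?_) j
        · change 0 ≤ v ∧ v ≤ 1
          rcases hv with rfl | rfl <;> norm_num
        · change 0 ≤ (x i - f t i.succ) / t ∧ (x i - f t i.succ) / t ≤ 1
          have h1 := hx.1 i
          have h2 := hx.2 i
          simp only at h1 h2
          have h3 := hk i
          constructor
          · apply div_nonneg _ ht0.le
            linarith
          · rw [div_le_one ht0]
            linarith
      · exact hv
      · refine Prod.ext ?_ ?_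
        · change t * v + f t 0 = f t 0 + v * t
          ring
        · funext i
          change t * ((x i - f t i.succ) / t) + f t i.succ = x i
          field_simp
          ring
    refine ⟨f t 0, fun x hx => ?_, fun x hx => ?_⟩
    · have := hmem 0 (Or.inl rfl) x hx
      rwa [zero_mul, add_zero] at this
    · have := hmem 1 (Or.inr rfl) x hx
      rwa [one_mul] at this
  -- these sets cover [1/2, 1)
  have hcov : Ico (1/2 : ℝ) 1 ⊆ ⋃ k : Fin m → Fin 5, {t : ℝ | t ∈ Ico (1/2 : ℝ) 1 ∧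
      ∀ i : Fin m, f t i.succ ≤ (k i : ℝ) / 4 ∧ (k i : ℝ) / 4 + 1 / 4 ≤ f t i.succ + t} := by
    intro t ht
    have htI : t ∈ Ioo (0:ℝ) 1 := ⟨by have := ht.1; linarith, ht.2⟩
    have hk : ∀ i : Fin m, ∃ k : Fin 5, f t i.succ ≤ (k : ℝ) / 4 ∧
        (k : ℝ) / 4 + 1 / 4 ≤ f t i.succ + t := by
      intro i
      obtain ⟨h0, h1⟩ := hf t htI i.succ
      have h2 : ⌈4 * f t i.succ⌉₊ ≤ 4 := by
        rw [Nat.ceil_le]; push_cast; linarith
      refine ⟨⟨⌈4 * f t i.succ⌉₊, by omega⟩, ?_, ?_⟩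
      · have := Nat.le_ceil (4 * f t i.succ)
        simp only
        linarith
      · have h3 := Nat.ceil_lt_add_one (show 0 ≤ 4 * f t i.succ by linarith)
        have := ht.1
        simp only
        linarith
    choose k hk using hk
    exact mem_iUnion.2 ⟨k, ht, hk⟩
  have hfinal : volume (Ico (1/2 : ℝ) 1) = 0 :=
    measure_mono_null hcov (measure_iUnion_null hnull)
  rw [Real.volume_Ico] at hfinal
  norm_num at hfinal

end Pool.Agent.Results.MP_05d054_an.CubeBoundaries
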